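import Pool.Agent.Run7.h292.BL.ASY
import Pool.Agent.Run7.h459.BL.MOM2
import Pool.Agent.Run7.h510.BL.DIST
import Pool.Agent.Run7.h705.BL.CYC
import Pool.Agent.Run7.h774.BL.CNT
import Pool.Agent.Run7.h774.BL.MOM1

/-!
# MP_2d701a_co: the diameter of tournament interchange graphs is at most `(1 / 4 + o(1)) n ^ 2`

Sources: the fractional packing theorem is the one of the starting file
`Pool.Agent.Results.MP_2634a8_co.Fractional`; the weighted nibble theorem is that of the starting
library (`H248.Nib.nibble_T`); pieces of the proof by helper459 (MOM2), helper510 (DIST),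
helper705 (CYC), helper774 (MOM1, CNT) and helper292.
-/

set_option autoImplicit false

namespace Pool.Agent.Results.MP_2d701a_co.AsymptoticDiameter

open Finset
open Pool.Agent.Results.MP_2634a8_co.Fractional (DiCycle)
open Pool.Agent.Run7.h292.BL (dO ArcDisjoint StAsy StDist t_ASY IsTour Within diffArcs)

theorem asy : StAsy :=
  t_ASY Pool.Agent.Run7.h774.BL.t_MOM1 Pool.Agent.Run7.h459.BL.t_MOM2 Pool.Agent.Run7.h774.BL.t_CNT

theorem dst : StDist := Pool.Agent.Run7.h510.BL.t_DIST Run7.h705.BL.t_CYC

/-- the number of arcs of `T` which leave `v` and are reversed in `T'` -/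
noncomputable def rv {V : Type} (T T' : V → V → Prop) (v : V) : ℝ :=
  (Nat.card {u // T v u ∧ T' u v} : ℝ)

/-- the score of the vertex `v` -/
noncomputable def score {V : Type} (T : V → V → Prop) (v : V) : ℕ := Nat.card {u // T v u}

open Classical in
theorem rv_eq {V : Type} [Fintype V] (T T' : V → V → Prop) (v : V) :
    rv T T' v = dO (diffArcs T T') v := by
  unfold rv dO
  rw [Nat.card_eq_fintype_card, Fintype.card_subtype]
  congr 2
  ext u
  rw [mem_filter, mem_filter]
  exact Iff.rfl

open Classical in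
/-- the refined asymptotic bound for the distance -/
theorem refined (ε : ℝ) (hε : 0 < ε) : ∃ n₀ : ℕ, ∀ (V : Type) [Fintype V],
    n₀ ≤ Fintype.card V → ∀ T T' : V → V → Prop, IsTour T → IsTour T' →
    (∀ v, score T v = score T' v) →
    ∃ k : ℕ, Within k T T' ∧
      (k : ℝ) ≤ ∑ v, rv T T' v * (1 - rv T T' v / Fintype.card V) +
        ε * (Fintype.card V : ℝ) ^ 2 := by
  obtain ⟨n₀, h₀⟩ := asy (ε / 2) (by linarith)
  refine ⟨max n₀ 1, ?_⟩
  intro V _ hcard T T' hT hT' hs
  have hn : (0 : ℝ) < Fintype.card V := by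
    exact_mod_cast lt_of_lt_of_le Nat.zero_lt_one ((le_max_right _ _).trans hcard)
  have hs' : ∀ v, #{u | T v u} = #{u | T' v u} := by
    intro v
    have := hs v
    unfold score at this
    rwa [Nat.card_eq_fintype_card, Nat.card_eq_fintype_card, Fintype.card_subtype,
      Fintype.card_subtype] at this
  -- the difference digraph
  have hD1 : ∀ u v, diffArcs T T' u v → ¬ diffArcs T T' v u := by
    intro u v h h'
    exact hT.2.1 u v h.1 h'.1
  have hD2 : ∀ v, #{u | diffArcs T T' u v} = #{u | diffArcs T T' v u} := by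
    intro v
    have e1 : #{u | T v u} = #{u | diffArcs T T' v u} + #{u | T v u ∧ T' v u} := by
      rw [← card_union_of_disjoint]
      · congr 1
        ext u
        simp only [mem_union, mem_filter, mem_univ, true_and]
        constructor
        · intro h
          have hne : u ≠ v := fun e => hT.1 v (e ▸ h)
          rcases hT'.2.2 u v hne with h1 | h1
          · exact Or.inl ⟨h, h1⟩
          · exact Or.inr ⟨h, h1⟩
        · rintro (h | h)
          · exact h.1
          · exact h.1
      · rw [disjoint_left]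
        intro u h1 h2
        simp only [mem_filter, mem_univ, true_and] at h1 h2
        exact hT'.2.1 _ _ h1.2 h2.2
    have e2 : #{u | T' v u} = #{u | diffArcs T T' u v} + #{u | T v u ∧ T' v u} := by
      rw [← card_union_of_disjoint]
      · congr 1
        ext u
        simp only [mem_union, mem_filter, mem_univ, true_and]
        constructor
        · intro h
          have hne : u ≠ v := fun e => hT'.1 v (e ▸ h)
          rcases hT.2.2 u v hne with h1 | h1
          · exact Or.inl ⟨h1, h⟩
          · exact Or.inr ⟨h1, h⟩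
        · rintro (h | h)
          · exact h.2
          · exact h.2
      · rw [disjoint_left]
        intro u h1 h2
        simp only [mem_filter, mem_univ, true_and] at h1 h2
        exact hT.2.1 _ _ h1.1 h2.1
    have e3 := hs' v
    omega
  obtain ⟨N, C, hC, hN⟩ := h₀ V (diffArcs T T') ((le_max_left _ _).trans hcard) hD1 hD2
  refine ⟨#{a : V × V | diffArcs T T' a.1 a.2} - 2 * N, dst V T T' hT hT' hs' N C hC, ?_⟩
  have hm : ((#{a : V × V | diffArcs T T' a.1 a.2} : ℕ) : ℝ) = ∑ v, rv T T' v := by
    simp only [rv_eq]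
    unfold dO
    rw [← Nat.cast_sum]
    congr 1
    rw [card_filter, Fintype.sum_prod_type]
    refine sum_congr rfl fun v _ => ?_
    rw [card_filter]
  set n : ℝ := (Fintype.card V : ℝ) with hndef
  have hq : (∑ v, dO (diffArcs T T') v ^ 2) / (2 * n) = (∑ v, rv T T' v ^ 2) / n / 2 := by
    simp only [rv_eq]
    field_simp
  have hsum : ∑ v, rv T T' v * (1 - rv T T' v / n) = ∑ v, rv T T' v - (∑ v, rv T T' v ^ 2) / n := by
    rw [sum_div, ← sum_sub_distrib]
    refine sum_congr rfl fun v _ => ?_
    ring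
  have hnn : 0 ≤ ∑ v, rv T T' v * (1 - rv T T' v / n) := by
    refine sum_nonneg fun v _ => ?_
    have h1 : rv T T' v ≤ n := by
      rw [rv_eq]
      unfold dO
      rw [hndef]
      exact_mod_cast card_le_univ _
    have h2 : 0 ≤ rv T T' v := Nat.cast_nonneg _
    refine mul_nonneg h2 ?_
    rw [sub_nonneg, div_le_one hn]
    exact h1
  by_cases hle : 2 * N ≤ #{a : V × V | diffArcs T T' a.1 a.2}
  · rw [Nat.cast_sub hle, hm, hsum]
    push_cast
    rw [hq] at hN
    linarith
  · rw [Nat.sub_eq_zero_of_le (by omega)]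
    have : 0 < ε * n ^ 2 := by positivity
    push_cast
    linarith

theorem rv_le_score {V : Type} [Fintype V] (T T' : V → V → Prop) (v : V) :
    rv T T' v ≤ score T v := by
  classical
  unfold rv score
  rw [Nat.card_eq_fintype_card, Nat.card_eq_fintype_card, Fintype.card_subtype,
    Fintype.card_subtype]
  exact_mod_cast card_le_card (fun u hu => by
    simp only [mem_filter, mem_univ, true_and] at hu ⊢
    exact hu.1)

/-- The maximal number of reversed arcs at `v`: at most the score and at most its complement. -/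
theorem rv_le_compl {V : Type} [Fintype V] (T T' : V → V → Prop) (hT' : IsTour T') (v : V)
    (hs : score T v = score T' v) : rv T T' v + score T v + 1 ≤ Fintype.card V := by
  classical
  rw [hs]
  unfold rv score
  rw [Nat.card_eq_fintype_card, Nat.card_eq_fintype_card, Fintype.card_subtype,
    Fintype.card_subtype]
  have hd : Disjoint (univ.filter fun u => T v u ∧ T' u v) (univ.filter fun u => T' v u) := by
    rw [disjoint_left]
    intro u h1 h2
    simp only [mem_filter, mem_univ, true_and] at h1 h2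
    exact hT'.2.1 _ _ h1.2 h2
  have h1 : #{u | T v u ∧ T' u v} + #{u | T' v u} + 1 ≤ Fintype.card V := by
    rw [← card_union_of_disjoint hd]
    have hv : v ∉ (univ.filter fun u => T v u ∧ T' u v) ∪ (univ.filter fun u => T' v u) := by
      simp only [mem_union, mem_filter, mem_univ, true_and, not_or, not_and]
      exact ⟨fun _ => hT'.1 v, hT'.1 v⟩
    rw [← card_insert_of_notMem hv]
    exact card_le_univ _
  exact_mod_cast h1

/-- Main theorem.
(1) For every `ε > 0` there is `n₀` such that any two tournaments on `n ≥ n₀` vertices with the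
same scores are joined by at most `(1 / 4 + ε) n ^ 2` reversals of directed `3`-cycles.
(2) More precisely the number of reversals can be bounded by
`∑ v, r v (1 - r v / n) + ε n ^ 2`, where `r v` is the number of arcs leaving `v` in `T` which are
reversed in `T'`.
(3) For every `δ > 0` there is `n₀` such that the conjectured bound, which is
`⌊(n - 1) ^ 2 / 4⌋`, holds for all pairs `T, T'` of tournaments on `n ≥ n₀` vertices with the same
scores which satisfy `∑ v, |r v - n / 2| ≥ δ n ^ 2`; in particular for all tournaments whose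
scores satisfy `∑ v, |score v - n / 2| ≥ δ n ^ 2`. -/
theorem result :
    (∀ ε : ℝ, 0 < ε → ∃ n₀ : ℕ, ∀ (V : Type) [Fintype V], n₀ ≤ Fintype.card V →
      ∀ T T' : V → V → Prop, IsTour T → IsTour T' → (∀ v, score T v = score T' v) →
      ∃ k : ℕ, Within k T T' ∧ (k : ℝ) ≤ (1 / 4 + ε) * (Fintype.card V : ℝ) ^ 2) ∧
    (∀ ε : ℝ, 0 < ε → ∃ n₀ : ℕ, ∀ (V : Type) [Fintype V], n₀ ≤ Fintype.card V →
      ∀ T T' : V → V → Prop, IsTour T → IsTour T' → (∀ v, score T v = score T' v) →
      ∃ k : ℕ, Within k T T' ∧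
        (k : ℝ) ≤ ∑ v, rv T T' v * (1 - rv T T' v / Fintype.card V) +
          ε * (Fintype.card V : ℝ) ^ 2) ∧
    (∀ δ : ℝ, 0 < δ → ∃ n₀ : ℕ, ∀ (V : Type) [Fintype V], n₀ ≤ Fintype.card V →
      ∀ T T' : V → V → Prop, IsTour T → IsTour T' → (∀ v, score T v = score T' v) →
      (δ * (Fintype.card V : ℝ) ^ 2 ≤ ∑ v, |rv T T' v - (Fintype.card V : ℝ) / 2| ∨
        δ * (Fintype.card V : ℝ) ^ 2 ≤ ∑ v, |(score T v : ℝ) - (Fintype.card V : ℝ) / 2|) →
      ∃ k : ℕ, Within k T T' ∧ k ≤ (Fintype.card V - 1) ^ 2 / 4) := by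
  refine ⟨?_, fun ε hε => refined ε hε, ?_⟩
  · intro ε hε
    obtain ⟨n₀, h₀⟩ := refined ε hε
    refine ⟨max n₀ 1, ?_⟩
    intro V _ hcard T T' hT hT' hs
    obtain ⟨k, hk, hk'⟩ := h₀ V ((le_max_left _ _).trans hcard) T T' hT hT' hs
    refine ⟨k, hk, hk'.trans ?_⟩
    have hn : (0 : ℝ) < Fintype.card V := by
      exact_mod_cast lt_of_lt_of_le Nat.zero_lt_one ((le_max_right _ _).trans hcard)
    set n : ℝ := (Fintype.card V : ℝ) with hndef
    have h1 : ∑ v, rv T T' v * (1 - rv T T' v / n) ≤ ∑ v : V, n / 4 := by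
      refine sum_le_sum fun v _ => ?_
      have h2 : rv T T' v * (1 - rv T T' v / n) = n / 4 - (rv T T' v - n / 2) ^ 2 / n := by
        field_simp
        ring
      rw [h2]
      have : 0 ≤ (rv T T' v - n / 2) ^ 2 / n := by positivity
      linarith
    have h3 : ∑ v : V, n / 4 = 1 / 4 * n ^ 2 := by
      rw [sum_const, card_univ, nsmul_eq_mul, ← hndef]
      ring
    rw [h3] at h1
    linarith
  · intro δ hδ
    obtain ⟨n₀, h₀⟩ := refined (δ ^ 2 / 2) (by positivity)
    obtain ⟨n₁, h₁⟩ := exists_nat_ge (2 / δ ^ 2)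
    refine ⟨max n₀ (n₁ + 1), ?_⟩
    intro V _ hcard T T' hT hT' hs hcase
    obtain ⟨k, hk, hk'⟩ := h₀ V ((le_max_left _ _).trans hcard) T T' hT hT' hs
    refine ⟨k, hk, ?_⟩
    have hc1 : n₁ + 1 ≤ Fintype.card V := (le_max_right _ _).trans hcard
    have hc2 : ((n₁ + 1 : ℕ) : ℝ) ≤ Fintype.card V := by exact_mod_cast hc1
    have hnδ : 2 / δ ^ 2 ≤ Fintype.card V := by push_cast at hc2; linarith
    have hn : (0 : ℝ) < Fintype.card V := lt_of_lt_of_le (by positivity) hnδ
    have hcase' : δ * (Fintype.card V : ℝ) ^ 2 ≤ ∑ v, |rv T T' v - (Fintype.card V : ℝ) / 2| := by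
      rcases hcase with h | h
      · exact h
      · refine h.trans (sum_le_sum fun v _ => ?_)
        have a1 := rv_le_score T T' v
        have a2 := rv_le_compl T T' hT' v (hs v)
        rw [abs_le]
        constructor
        · have a3 := neg_abs_le (rv T T' v - (Fintype.card V : ℝ) / 2)
          have a4 : -(|rv T T' v - (Fintype.card V : ℝ) / 2|) ≤
            rv T T' v - (Fintype.card V : ℝ) / 2 := a3
          linarith
        · have a5 : -(rv T T' v - (Fintype.card V : ℝ) / 2) ≤
            |rv T T' v - (Fintype.card V : ℝ) / 2| := neg_le_abs _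
          linarith
    set n : ℝ := (Fintype.card V : ℝ) with hndef
    have h1 : ∑ v, rv T T' v * (1 - rv T T' v / n) =
        n ^ 2 / 4 - (∑ v, (rv T T' v - n / 2) ^ 2) / n := by
      have h2 : ∀ v, rv T T' v * (1 - rv T T' v / n) = n / 4 - (rv T T' v - n / 2) ^ 2 / n := by
        intro v
        field_simp
        ring
      rw [sum_congr rfl fun v _ => h2 v, sum_sub_distrib, sum_const, card_univ, nsmul_eq_mul,
        ← hndef, ← sum_div]
      ring
    have h3 : (∑ v, |rv T T' v - n / 2|) ^ 2 ≤ n * ∑ v, (rv T T' v - n / 2) ^ 2 := by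
      have := sq_sum_le_card_mul_sum_sq (s := (univ : Finset V))
        (f := fun v => |rv T T' v - n / 2|)
      simpa [sq_abs, hndef] using this
    have h4 : (δ * n ^ 2) ^ 2 ≤ n * ∑ v, (rv T T' v - n / 2) ^ 2 :=
      (pow_le_pow_left₀ (by positivity) hcase' 2).trans h3
    have h5 : δ ^ 2 * n ^ 2 ≤ (∑ v, (rv T T' v - n / 2) ^ 2) / n := by
      rw [le_div_iff₀ hn]
      have h6 : n * (δ ^ 2 * n ^ 2 * n) ≤ n * ∑ v, (rv T T' v - n / 2) ^ 2 := by
        calc _ = (δ * n ^ 2) ^ 2 := by ring
          _ ≤ _ := h4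
      exact le_of_mul_le_mul_left h6 hn
    have h6 : (k : ℝ) ≤ n ^ 2 / 4 - δ ^ 2 / 2 * n ^ 2 := by
      rw [h1] at hk'
      linarith
    -- comparison with the conjectured bound
    have h7 : n ≤ δ ^ 2 / 2 * n ^ 2 := by
      rw [div_le_iff₀ (by positivity)] at hnδ
      nlinarith
    have h8 : (k : ℝ) ≤ n ^ 2 / 4 - n := by linarith
    have hc0 : 1 ≤ Fintype.card V := by omega
    rw [Nat.le_div_iff_mul_le (by norm_num)]
    have h9 : ((k * 4 : ℕ) : ℝ) ≤ (((Fintype.card V - 1) ^ 2 : ℕ) : ℝ) := by
      push_cast [Nat.cast_sub hc0]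
      rw [← hndef]
      nlinarith
    exact_mod_cast h9

end Pool.Agent.Results.MP_2d701a_co.AsymptoticDiameter
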